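import Pool.Agent.U797.NL.Spec

/-!
# Project NL, package R: simple facts on rich sets
-/

set_option autoImplicit false

namespace Pool.Agent.U423.NL

open Finset
open scoped Classical
open Pool.Agent.U797.LV (nb)
open Pool.Agent.U797.NL

theorem rich_sub {V : Type} [Fintype V] (G : SimpleGraph V) (b : ℝ) :
    ∀ (i : ℕ) (B : ℝ) (v : V) (C : Finset V), Rich G b i B v C → C ⊆ nb G v
  | 0, _, _, _, h => h
  | _ + 1, _, _, _, h => h.1

theorem t_R : S_R := by
  intro V _ G b _
  refine ⟨?_, ?_, ?_, ?_⟩
  · intro i B B' v C hB' hBB h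
    cases i with
    | zero => exact h
    | succ i =>
      obtain ⟨h1, P, h2, h3⟩ := h
      refine ⟨h1, P, h2, fun u => (h3 u).trans ?_⟩
      exact div_le_div_of_nonneg_left (Nat.cast_nonneg _) hB' hBB
  · intro i B η v C C' hB hη hCC hcard h
    cases i with
    | zero => exact hCC.trans h
    | succ i =>
      obtain ⟨h1, P, h2, h3⟩ := h
      refine ⟨hCC.trans h1, P, fun y hy => h2 y (hCC hy), fun u => ?_⟩
      have h4 : ∑ y ∈ C', ((P y ∩ nb G u).card : ℝ) / ((P y).card : ℝ) ≤
          ∑ y ∈ C, ((P y ∩ nb G u).card : ℝ) / ((P y).card : ℝ) :=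
        Finset.sum_le_sum_of_subset_of_nonneg hCC fun _ _ _ => by positivity
      refine (h4.trans (h3 u)).trans ?_
      rw [div_le_div_iff₀ hB (mul_pos hη hB)]
      nlinarith
  · intro i B v C C' hB hd h h'
    cases i with
    | zero => exact union_subset h h'
    | succ i =>
      obtain ⟨h1, P, h2, h3⟩ := h
      obtain ⟨h1', P', h2', h3'⟩ := h'
      refine ⟨union_subset h1 h1', fun y => if y ∈ C then P y else P' y, ?_, fun u => ?_⟩
      · intro y hy
        by_cases hyC : y ∈ C
        · simp only [hyC, if_true]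
          exact h2 y hyC
        · simp only [hyC, if_false]
          exact h2' y ((mem_union.1 hy).resolve_left hyC)
      · rw [sum_union hd, card_union_of_disjoint hd, Nat.cast_add, add_div]
        refine add_le_add (le_trans (le_of_eq ?_) (h3 u)) (le_trans (le_of_eq ?_) (h3' u))
        · refine sum_congr rfl fun y hy => ?_
          simp only [hy, if_true]
        · refine sum_congr rfl fun y hy => ?_
          have hyC : y ∉ C := fun hc => Finset.disjoint_left.1 hd hc hy
          simp only [hyC, if_false]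
  · intro i B v C hB hC h
    obtain ⟨h1, P, h2, h3⟩ := h
    obtain ⟨y0, hy0⟩ := hC
    have h4 := h3 y0
    have h5 : ((P y0 ∩ nb G y0).card : ℝ) / ((P y0).card : ℝ) ≤
        ∑ y ∈ C, ((P y ∩ nb G y0).card : ℝ) / ((P y).card : ℝ) :=
      Finset.single_le_sum (f := fun y => ((P y ∩ nb G y0).card : ℝ) / ((P y).card : ℝ))
        (fun _ _ => by positivity) hy0
    have h6 : P y0 ∩ nb G y0 = P y0 :=
      inter_eq_left.2 (rich_sub G b i b y0 (P y0) (h2 y0 hy0).2)
    have h7 : (0 : ℝ) < (P y0).card := by exact_mod_cast (h2 y0 hy0).1.card_pos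
    rw [h6, div_self h7.ne'] at h5
    have h8 := h5.trans h4
    rwa [le_div_iff₀ hB, one_mul] at h8

end Pool.Agent.U423.NL
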